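import Pool.Agent.W378.KF.Ball
import Pool.Agent.W215.KF.Paths
import Pool.Agent.W305.KF.Mark
import Pool.Agent.W723.KF.Cut
import Pool.Agent.W177.KF.Hoef
import Pool.Agent.W613.KF.Flip
import Pool.Agent.W240.KF.Level
import Pool.Agent.W853.KF.SG
import Pool.Agent.W372.KF.Phase
import Pool.Agent.W319.KF.Edge

/-!
# Random Kempe flips with many tests at every edge

A refinement of the phase of project KF (`Pool.Agent.W372.KF.Phase`): the number of the tests
which are alive at an edge at a late level is small, if the tests are different colours.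
-/

set_option autoImplicit false

namespace Pool.Agent.V11298.EC

open Finset Pool.Agent.W842.KF

theorem t_cut : S_CUT :=
  Pool.Agent.W723.KF.t_cut Pool.Agent.W378.KF.t_ball Pool.Agent.W378.KF.t_bmeet
    Pool.Agent.W378.KF.t_grow Pool.Agent.W215.KF.t_paths Pool.Agent.W215.KF.t_cls
    Pool.Agent.W305.KF.t_mark1 Pool.Agent.W305.KF.t_mark2

theorem t_level : S_LEVEL :=
  Pool.Agent.W240.KF.t_level t_cut
    (Pool.Agent.W613.KF.t_flip Pool.Agent.W215.KF.t_cls Pool.Agent.W177.KF.t_hoef)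
    Pool.Agent.W215.KF.t_kempe

/-- the number of alive tests, if the tests are different colours -/
theorem alv_card_le_pow {o m j q : ℕ} {V : Type} (y : Fin q → V → V → ℕ) (x : ℕ) (v u : V)
    (hj : j ≤ m)
    (hinj : ∀ i i', inT o 1 m (y i v u) → y i v u = y i' v u → i = i') :
    (alv o 1 m j y x v u).card ≤ 2 ^ (m - j) := by
  classical
  rw [← card_range (2 ^ (m - j))]
  refine Finset.card_le_card_of_injOn (fun i => (y i v u - o) / 2 ^ j) ?_ ?_
  · intro i hi
    rw [Finset.mem_coe, mem_alv] at hi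
    rw [Finset.mem_coe, mem_range]
    have h1 := hi.2.1
    unfold inT at h1
    rw [Nat.div_lt_iff_lt_mul (by positivity), ← pow_add, Nat.sub_add_cancel hj]
    omega
  · intro i hi i' hi' h
    rw [Finset.mem_coe, mem_alv] at hi hi'
    apply hinj i i' hi.2.1
    have h1 := hi.2.2
    have h2 := hi'.2.2
    unfold bk at h1 h2
    simp only [Nat.div_one] at h1 h2
    have h3 : (y i v u - o) % 2 ^ j = (y i' v u - o) % 2 ^ j := by rw [← h1, ← h2]
    have h4 := Nat.div_add_mod (y i v u - o) (2 ^ j)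
    have h5 := Nat.div_add_mod (y i' v u - o) (2 ^ j)
    have h : (y i v u - o) / 2 ^ j = (y i' v u - o) / 2 ^ j := h
    rw [h, h3, h5] at h4
    have h6 := hi.2.1.1
    have h7 := hi'.2.1.1
    omega

/-- the claim of the induction -/
theorem main (V : Type) [Fintype V] (Γ : SimpleGraph V)
    (c : V → V → ℕ) (K q o b m : ℕ) (y : Fin q → V → V → ℕ) (Q : ℕ → ℕ)
    (hQ : ∀ j ≤ m, ∀ x v u, (alv o b m j y x v u).card ≤ Q j)
    (hK : 64 ≤ K) (hq : 1 ≤ q) (hb : 1 ≤ b) (hobm : o + 2 ^ m * b ≤ K) (hc : Col Γ c)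
    (hd : ∀ v, (nb Γ v).card ≤ K) (hcK : ∀ u v, Γ.Adj u v → c u v < K) (g : ℕ → ℝ)
    (hg0 : g 0 = √((q : ℝ) * K))
    (hg : ∀ j, g (j + 1) = g j / √2 + √((Q j : ℝ) * (5 * Real.log K) / 2)) :
    (∀ j, 0 < g j) ∧ ∀ j, j ≤ m →
    ∃ (R : SimpleGraph V) (c' : V → V → ℕ), R ≤ Γ ∧ (∀ v, (nb R v).card ≤ 15 * j) ∧
      Col (Γ \ R) c' ∧ (∀ u v, (Γ \ R).Adj u v → c' u v < K) ∧
      (∀ u v, (Γ \ R).Adj u v → ¬ inT o b m (c u v) → c' u v = c u v) ∧
      (∀ u v, (Γ \ R).Adj u v → inT o b m (c u v) → inT o b m (c' u v)) ∧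
      ∀ v, ∑ u ∈ nb (Γ \ R) v, ((alv o b m j y (c' v u) v u).card : ℝ) ≤ (g j) ^ 2 := by
  classical
  have hL := t_level
  have hSG : S_SG := Pool.Agent.W853.KF.t_sg
  have hqR : (1 : ℝ) ≤ (q : ℝ) := by exact_mod_cast hq
  have hKR : (64 : ℝ) ≤ (K : ℝ) := by exact_mod_cast hK
  have hlog : 0 < Real.log K := Real.log_pos (by linarith)
  have hgpos : ∀ j, 0 < g j := by
    intro j
    induction j with
    | zero =>
      rw [hg0]
      exact Real.sqrt_pos.2 (by positivity)
    | succ j ih =>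
      rw [hg j]
      have : (0 : ℝ) < √2 := Real.sqrt_pos.2 (by norm_num)
      have h2 : (0 : ℝ) ≤ √((Q j : ℝ) * (5 * Real.log K) / 2) := Real.sqrt_nonneg _
      have h3 : 0 < g j / √2 := div_pos ih this
      linarith
  refine ⟨hgpos, ?_⟩
  intro j
  induction j with
  | zero =>
    intro _
    refine ⟨⊥, c, bot_le, ?_, ?_, ?_, ?_, ?_, ?_⟩
    · intro v
      have : nb (⊥ : SimpleGraph V) v = ∅ := by
        ext u
        rw [mem_nb]
        simp
      rw [this]
      simp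
    · rwa [sdiff_bot]
    · rw [sdiff_bot]
      exact hcK
    · intro u v _ _
      rfl
    · intro u v _ h
      exact h
    · intro v
      rw [sdiff_bot, hg0, Real.sq_sqrt (by positivity)]
      calc ∑ u ∈ nb Γ v, ((alv o b m 0 y (c v u) v u).card : ℝ)
          ≤ ∑ u ∈ nb Γ v, (q : ℝ) := by
            refine Finset.sum_le_sum fun u _ => ?_
            exact_mod_cast Pool.Agent.W372.KF.alv_card_le y (c v u) v u
        _ = (nb Γ v).card * (q : ℝ) := by rw [Finset.sum_const, nsmul_eq_mul]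
        _ ≤ (K : ℝ) * q := by
            have : ((nb Γ v).card : ℝ) ≤ (K : ℝ) := by exact_mod_cast hd v
            exact mul_le_mul_of_nonneg_right this (by positivity)
        _ = q * K := mul_comm _ _
  | succ j ih =>
    intro hj
    obtain ⟨R, c1, hR, hRd, hcol, hc1K, hun, hin, hsum⟩ := ih (by omega)
    have hjm : j < m := by omega
    have hinv : ∀ x, sg o b m j (sg o b m j x) = x := fun x => (hSG.1 o b m j hb hjm x).1
    have hsin : ∀ x, inT o b m x → inT o b m (sg o b m j x) :=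
      fun x => (hSG.1 o b m j hb hjm x).2.1
    have hφ : 0 < (g j) ^ 2 := pow_pos (hgpos j) 2
    have hsub : Γ \ R ≤ Γ := sdiff_le
    obtain ⟨M, bb, hM, hMd, hcol2, hsum2⟩ := hL V (Γ \ R) c1 (sg o b m j) K (Q j) ((g j) ^ 2)
      (fun v u β => (alv o b m (j + 1) y (if β then sg o b m j (c1 v u) else c1 v u) v u).card)
      hK hcol hinv
      (fun v => (Finset.card_le_card (Pool.Agent.W372.KF.nb_mono hsub v)).trans (hd v)) hc1K hφ
      (by
        intro v u
        have h := Pool.Agent.W372.KF.alv_add hSG (o := o) hb hjm y (c1 v u) v u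
        simp only [if_true, Bool.false_eq_true, if_false]
        rw [h]
        split_ifs
        · exact hQ j hjm.le _ v u
        · exact Nat.zero_le _)
      (by
        intro v
        refine le_trans (Finset.sum_le_sum fun u _ => ?_) (hsum v)
        have h := Pool.Agent.W372.KF.alv_add hSG (o := o) hb hjm y (c1 v u) v u
        simp only [if_true, Bool.false_eq_true, if_false]
        have h2 : (alv o b m (j + 1) y (c1 v u) v u).card +
            (alv o b m (j + 1) y (sg o b m j (c1 v u)) v u).card ≤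
            (alv o b m j y (c1 v u) v u).card := by
          rw [h]
          split_ifs
          · exact le_refl _
          · exact Nat.zero_le _
        exact_mod_cast h2)
    have hMΓ : M ≤ Γ := hM.trans hsub
    have hsd : (Γ \ R) \ M = Γ \ (R ⊔ M) := sdiff_sdiff_left
    rw [hsd] at hcol2 hsum2
    have hadj : ∀ u v, (Γ \ (R ⊔ M)).Adj u v → (Γ \ R).Adj u v := by
      intro u v h
      have : Γ \ (R ⊔ M) ≤ Γ \ R := by
        rw [← hsd]
        exact sdiff_le
      exact this h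
    refine ⟨R ⊔ M, fun u v => if bb u v then sg o b m j (c1 u v) else c1 u v,
      sup_le hR hMΓ, ?_, hcol2, ?_, ?_, ?_, ?_⟩
    · intro v
      have : nb (R ⊔ M) v ⊆ nb R v ∪ nb M v := by
        intro u hu
        rw [mem_nb] at hu
        rw [Finset.mem_union, mem_nb, mem_nb]
        exact hu
      calc (nb (R ⊔ M) v).card ≤ (nb R v ∪ nb M v).card := Finset.card_le_card this
        _ ≤ (nb R v).card + (nb M v).card := Finset.card_union_le _ _
        _ ≤ 15 * j + 15 := add_le_add (hRd v) (hMd v)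
        _ = 15 * (j + 1) := by ring
    · intro u v h
      have h1 := hc1K u v (hadj u v h)
      show (if bb u v then sg o b m j (c1 u v) else c1 u v) < K
      split_ifs
      · by_cases hx : inT o b m (c1 u v)
        · exact lt_of_lt_of_le (hsin _ hx).2 hobm
        · rw [sg_out hx]
          exact h1
      · exact h1
    · intro u v h hx
      have h1 := hun u v (hadj u v h) hx
      show (if bb u v then sg o b m j (c1 u v) else c1 u v) = c u v
      rw [h1, sg_out hx]
      simp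
    · intro u v h hx
      have h1 := hin u v (hadj u v h) hx
      show inT o b m (if bb u v then sg o b m j (c1 u v) else c1 u v)
      split_ifs
      · exact hsin _ h1
      · exact h1
    · intro v
      refine (hsum2 v).trans ?_
      rw [hg j]
      have hg1 := (hgpos j).le
      have h2 : (0 : ℝ) ≤ (Q j : ℝ) * (5 * Real.log K) := by positivity
      have e1 : √((Q j : ℝ) * (g j) ^ 2 * (5 * Real.log K)) =
          g j * √((Q j : ℝ) * (5 * Real.log K)) := by
        rw [show (Q j : ℝ) * (g j) ^ 2 * (5 * Real.log K) =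
          (g j) ^ 2 * ((Q j : ℝ) * (5 * Real.log K)) by ring, Real.sqrt_mul (sq_nonneg _),
          Real.sqrt_sq hg1]
      have e2 : √((Q j : ℝ) * (5 * Real.log K) / 2) = √((Q j : ℝ) * (5 * Real.log K)) / √2 :=
        Real.sqrt_div h2 _
      have h3 : (√2 : ℝ) ^ 2 = 2 := Real.sq_sqrt (by norm_num)
      have h4 : (0 : ℝ) < √2 := Real.sqrt_pos.2 (by norm_num)
      have h5 : (0 : ℝ) ≤ √((Q j : ℝ) * (5 * Real.log K)) := Real.sqrt_nonneg _
      rw [e1, e2, ← add_div, div_pow, h3]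
      have h6 : 0 ≤ g j * √((Q j : ℝ) * (5 * Real.log K)) := mul_nonneg hg1 h5
      nlinarith [sq_nonneg (√((Q j : ℝ) * (5 * Real.log K)))]

/-- the sum of the `√ (min 1 (q / 2 ^ k))` -/
theorem sumSqrt (q : ℕ) (a : ℕ → ℝ) (h1 : ∀ k, a k ≤ 1)
    (h2 : ∀ k, a k ≤ √((q : ℝ) / 2 ^ k)) (n : ℕ) :
    ∑ k ∈ range n, a (k + 1) ≤ Nat.log 2 q + 4 := by
  set l := Nat.log 2 q with hl
  have hq2 : (q : ℝ) ≤ 2 ^ (l + 1) := by
    have := Nat.lt_pow_succ_log_self (b := 2) (by norm_num) q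
    exact_mod_cast this.le
  have hbig : ∀ r : ℕ, a (l + 1 + r) ≤ (3 / 4) ^ r := by
    intro r
    refine (h2 _).trans ?_
    rw [Real.sqrt_le_left (by positivity)]
    rw [div_le_iff₀ (by positivity), pow_add (2 : ℝ) (l + 1) r]
    have h3 : (1 : ℝ) ≤ ((3 / 4) ^ r) ^ 2 * 2 ^ r := by
      rw [← pow_mul, mul_comm r 2, pow_mul, ← mul_pow]
      exact one_le_pow₀ (by norm_num)
    calc (q : ℝ) ≤ 2 ^ (l + 1) * 1 := by linarith
      _ ≤ 2 ^ (l + 1) * (((3 / 4) ^ r) ^ 2 * 2 ^ r) :=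
        mul_le_mul_of_nonneg_left h3 (by positivity)
      _ = ((3 / 4) ^ r) ^ 2 * (2 ^ (l + 1) * 2 ^ r) := by ring
  have key : ∀ r : ℕ, ∑ k ∈ range (l + 1 + r), a (k + 1) ≤
      l + 1 + 3 * (1 - (3 / 4) ^ r) := by
    intro r
    induction r with
    | zero =>
      have : ∑ k ∈ range (l + 1), a (k + 1) ≤ ∑ k ∈ range (l + 1), (1 : ℝ) :=
        Finset.sum_le_sum fun k _ => h1 _
      simp only [sum_const, card_range, nsmul_eq_mul, mul_one] at this
      push_cast at this
      simp only [add_zero, pow_zero, sub_self, mul_zero]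
      exact this
    | succ r ih =>
      rw [← add_assoc, Finset.sum_range_succ]
      have h3 := hbig (r + 1)
      rw [show l + 1 + (r + 1) = l + 1 + r + 1 by ring] at h3
      have h4 : (3 / 4 : ℝ) ^ (r + 1) = (3 / 4) ^ r * (3 / 4) := pow_succ _ _
      rw [h4] at h3 ⊢
      linarith
  rcases Nat.lt_or_ge n (l + 1) with h | h
  · have h3 : ∑ k ∈ range n, a (k + 1) ≤ ∑ k ∈ range n, (1 : ℝ) :=
      Finset.sum_le_sum fun k _ => h1 _
    simp only [sum_const, card_range, nsmul_eq_mul, mul_one] at h3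
    have h4 : (n : ℝ) ≤ l + 1 := by exact_mod_cast h.le
    linarith
  · obtain ⟨r, rfl⟩ := Nat.exists_eq_add_of_le h
    have h3 := key r
    have h4 : (0 : ℝ) ≤ (3 / 4) ^ r := by positivity
    linarith

/-- the recurrence -/
theorem rec (q K m : ℕ) (Λ : ℝ) (hΛ : 0 ≤ Λ) (hK : (K : ℝ) ≤ 2 * 2 ^ m) (g : ℕ → ℝ)
    (hg0 : g 0 = √((q : ℝ) * K))
    (hg : ∀ j, g (j + 1) = g j / √2 + √(((min q (2 ^ (m - j)) : ℕ) : ℝ) * Λ / 2))
    (hpos : ∀ j, 0 < g j) :
    (g m) ^ 2 ≤ 4 * q + 2 * Λ * (Nat.log 2 q + 4) ^ 2 := by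
  -- the normalised numbers
  have h2 : (0 : ℝ) < √2 := Real.sqrt_pos.2 (by norm_num)
  have key : ∀ j ≤ m, g j * (√2) ^ j ≤ (√2) ^ m * (√(2 * q) +
      √Λ * ∑ i ∈ range j, √(((min q (2 ^ (m - i)) : ℕ) : ℝ) / 2 ^ (m - i))) := by
    intro j
    induction j with
    | zero =>
      intro _
      rw [hg0, pow_zero, mul_one, range_zero, sum_empty, mul_zero, add_zero]
      rw [Real.sqrt_le_left (by positivity), mul_pow, Real.sq_sqrt (by positivity)]
      rw [← pow_mul, mul_comm m 2, pow_mul, Real.sq_sqrt (by norm_num : (0 : ℝ) ≤ 2)]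
      have hq0 : (0 : ℝ) ≤ q := Nat.cast_nonneg q
      nlinarith
    | succ j ih =>
      intro hj
      have ih' := ih (by omega)
      have e5 : ∀ x y z w t : ℝ, x * (y + z * (w + t)) = x * (y + z * w) + x * (z * t) := by
        intro x y z w t; ring
      rw [sum_range_succ, hg j, e5]
      have e1 : (g j / √2 + √(((min q (2 ^ (m - j)) : ℕ) : ℝ) * Λ / 2)) * √2 ^ (j + 1) =
          g j * √2 ^ j + √(((min q (2 ^ (m - j)) : ℕ) : ℝ) * Λ / 2) * √2 ^ (j + 1) := by
        rw [add_mul, pow_succ]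
        field_simp
      rw [e1]
      refine add_le_add ih' ?_
      set A : ℝ := ((min q (2 ^ (m - j)) : ℕ) : ℝ) with hA
      have hA0 : 0 ≤ A := Nat.cast_nonneg _
      have e2 : (√2 : ℝ) ^ m = √2 ^ j * √2 ^ (m - j) := by
        rw [← pow_add]; congr 1; omega
      have e3 : √(A * Λ / 2) = √A * √Λ / √2 := by
        rw [Real.sqrt_div (by positivity), Real.sqrt_mul hA0]
      have e4 : √(A / 2 ^ (m - j)) = √A / √2 ^ (m - j) := by
        rw [Real.sqrt_div hA0]
        congr 1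
        rw [Real.sqrt_eq_iff_mul_self_eq (by positivity) (by positivity), ← mul_pow,
          Real.mul_self_sqrt (by norm_num)]
      rw [e2, e3, e4, pow_succ]
      apply le_of_eq
      field_simp
  have h3 := key m le_rfl
  have hsum : ∑ i ∈ range m, √(((min q (2 ^ (m - i)) : ℕ) : ℝ) / 2 ^ (m - i)) ≤
      Nat.log 2 q + 4 := by
    have h4 := sumSqrt q (fun k => √(((min q (2 ^ k) : ℕ) : ℝ) / 2 ^ k)) (by
      intro k
      rw [Real.sqrt_le_one]
      rw [div_le_one (by positivity)]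
      exact_mod_cast min_le_right _ _) (by
      intro k
      apply Real.sqrt_le_sqrt
      apply div_le_div_of_nonneg_right _ (by positivity)
      exact_mod_cast min_le_left _ _) m
    refine le_trans (le_of_eq ?_) h4
    rw [← Finset.sum_range_reflect]
    refine Finset.sum_congr rfl fun i hi => ?_
    rw [mem_range] at hi
    have : m - (m - 1 - i) = i + 1 := by omega
    simp only [this]
  have h5 : g m ≤ √(2 * q) + √Λ * (Nat.log 2 q + 4) := by
    have h6 : (0 : ℝ) < (√2) ^ m := by positivity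
    have h7 : g m * (√2) ^ m ≤ (√(2 * q) + √Λ * (Nat.log 2 q + 4)) * (√2) ^ m := by
      refine h3.trans ?_
      rw [mul_comm]
      refine mul_le_mul_of_nonneg_right ?_ h6.le
      have := mul_le_mul_of_nonneg_left hsum (Real.sqrt_nonneg Λ)
      linarith
    exact le_of_mul_le_mul_right h7 h6
  have h8 : (g m) ^ 2 ≤ (√(2 * q) + √Λ * (Nat.log 2 q + 4)) ^ 2 :=
    pow_le_pow_left₀ (hpos m).le h5 2
  refine h8.trans ?_
  have h9 : √(2 * q : ℝ) ^ 2 = 2 * q := Real.sq_sqrt (by positivity)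
  have h10 : √Λ ^ 2 = Λ := Real.sq_sqrt hΛ
  have h11 := sq_nonneg (√(2 * q : ℝ) - √Λ * (Nat.log 2 q + 4))
  nlinarith

/-- **One phase**, all levels: the tests are different colours. -/
theorem phase (V : Type) [Fintype V] (Γ : SimpleGraph V) (c : V → V → ℕ) (K q o m : ℕ)
    (y : Fin q → V → V → ℕ)
    (hinj : ∀ v u i i', inT o 1 m (y i v u) → y i v u = y i' v u → i = i')
    (hK : 64 ≤ K) (hq : 1 ≤ q) (hobm : o + 2 ^ m ≤ K) (hK2 : K ≤ 2 * 2 ^ m) (hc : Col Γ c)
    (hd : ∀ v, (nb Γ v).card ≤ K) (hcK : ∀ u v, Γ.Adj u v → c u v < K) :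
    ∃ (R : SimpleGraph V) (c' : V → V → ℕ), R ≤ Γ ∧ (∀ v, (nb R v).card ≤ 15 * m) ∧
      Col (Γ \ R) c' ∧ (∀ u v, (Γ \ R).Adj u v → c' u v < K) ∧
      (∀ u v, (Γ \ R).Adj u v → ¬ inT o 1 m (c u v) → c' u v = c u v) ∧
      (∀ u v, (Γ \ R).Adj u v → inT o 1 m (c u v) → inT o 1 m (c' u v)) ∧
      ∀ v, ∑ u ∈ nb (Γ \ R) v, ((alv o 1 m m y (c' v u) v u).card : ℝ) ≤
        4 * q + 10 * (Nat.log 2 q + 4) ^ 2 * Real.log K := by
  have hKR : (64 : ℝ) ≤ (K : ℝ) := by exact_mod_cast hK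
  have hlog : 0 < Real.log K := Real.log_pos (by linarith)
  let g : ℕ → ℝ := fun j => Nat.rec (√((q : ℝ) * K)) (fun i x => x / √2 +
    √(((min q (2 ^ (m - i)) : ℕ) : ℝ) * (5 * Real.log K) / 2)) j
  obtain ⟨hpos, h⟩ := main V Γ c K q o 1 m y (fun j => min q (2 ^ (m - j)))
    (fun j hj x v u => le_min (Pool.Agent.W372.KF.alv_card_le y x v u)
      (alv_card_le_pow y x v u hj (hinj v u)))
    hK hq le_rfl (by omega) hc hd hcK g rfl (fun j => rfl)
  obtain ⟨R, c', h1, h2, h3, h4, h5, h6, h7⟩ := h m le_rfl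
  refine ⟨R, c', h1, h2, h3, h4, h5, h6, fun v => (h7 v).trans ?_⟩
  have h8 := rec q K m (5 * Real.log K) (by positivity) (by exact_mod_cast hK2) g rfl
    (fun j => rfl) hpos
  linarith

/-- **All phases**: almost every edge gets a colour which is not among its tests. -/
theorem edge (V : Type) [Fintype V] (Γ : SimpleGraph V) (c : V → V → ℕ) (K q : ℕ)
    (y : Fin q → V → V → ℕ)
    (hinj : ∀ v u i i', y i v u < K → y i v u = y i' v u → i = i')
    (hK : 64 ≤ K) (hq : 1 ≤ q) (hc : Col Γ c)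
    (hd : ∀ v, (nb Γ v).card ≤ K) (hcK : ∀ u v, Γ.Adj u v → c u v < K) :
    ∃ (R : SimpleGraph V) (c' : V → V → ℕ), R ≤ Γ ∧
      (∀ v, ((nb R v).card : ℝ) ≤ 44 * Real.log K) ∧
      Col (Γ \ R) c' ∧ (∀ u v, (Γ \ R).Adj u v → c' u v < K) ∧
      ∀ v, ∃ B : Finset V,
        (B.card : ℝ) ≤ 8 * q + 20 * (Nat.log 2 q + 4) ^ 2 * Real.log K ∧
        ∀ u ∈ nb (Γ \ R) v, u ∉ B → ∀ i, c' v u ≠ y i v u := by
  classical
  set m := Nat.log 2 K with hm
  have hm1 : 2 ^ m ≤ K := Nat.pow_log_le_self 2 (by omega)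
  have hm2 : K < 2 * 2 ^ m := by
    have := Nat.lt_pow_succ_log_self (b := 2) (by norm_num) K
    rw [pow_succ, ← hm] at this
    omega
  obtain ⟨R1, c1, hR1, hR1c, hcol1, hK1, hout1, hin1, hsum1⟩ :=
    phase V Γ c K q 0 m y (fun v u i i' h1 h2 => hinj v u i i'
      (lt_of_lt_of_le h1.2 (by omega)) h2) hK hq (by omega) hm2.le hc hd hcK
  set o := K - 2 ^ m with ho
  have hdeg1 : ∀ v, (nb (Γ \ R1) v).card ≤ K :=
    fun v => (Pool.Agent.W319.KF.nb_mono sdiff_le v).trans (hd v)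
  obtain ⟨R2, c2, hR2, hR2c, hcol2, hK2, hout2, hin2, hsum2⟩ :=
    phase V (Γ \ R1) c1 K q o m y (fun v u i i' h1 h2 => hinj v u i i'
      (lt_of_lt_of_le h1.2 (by omega)) h2) hK hq (by omega) hm2.le hcol1 hdeg1 hK1
  have hsd : (Γ \ R1) \ R2 = Γ \ (R1 ⊔ R2) := sdiff_sdiff_left
  rw [hsd] at hcol2 hK2 hout2 hin2 hsum2
  have hlogK : (m : ℝ) * Real.log 2 ≤ Real.log K := by
    have h1 : (2 : ℝ) ^ m ≤ K := by exact_mod_cast hm1
    have h2 := Real.log_le_log (by positivity) h1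
    rwa [Real.log_pow] at h2
  have hlog2 := Real.log_two_gt_d9
  have hm0 : (0 : ℝ) ≤ m := Nat.cast_nonneg m
  refine ⟨R1 ⊔ R2, c2, sup_le hR1 (hR2.trans sdiff_le), ?_, hcol2, hK2, ?_⟩
  · intro v
    have h1 : (nb (R1 ⊔ R2) v).card ≤ 15 * m + 15 * m := by
      have h2 : nb (R1 ⊔ R2) v ⊆ nb R1 v ∪ nb R2 v := by
        intro u hu
        rw [mem_nb] at hu
        rw [Finset.mem_union, mem_nb, mem_nb]
        exact hu
      exact (Finset.card_le_card h2).trans ((Finset.card_union_le _ _).trans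
        (add_le_add (hR1c v) (hR2c v)))
    have h2 : ((nb (R1 ⊔ R2) v).card : ℝ) ≤ 30 * m := by
      have : ((nb (R1 ⊔ R2) v).card : ℝ) ≤ ((15 * m + 15 * m : ℕ) : ℝ) := by exact_mod_cast h1
      push_cast at this
      linarith
    nlinarith
  · intro v
    refine ⟨((nb (Γ \ (R1 ⊔ R2)) v).filter fun u => (alv 0 1 m m y (c1 v u) v u).card ≠ 0) ∪
      ((nb (Γ \ (R1 ⊔ R2)) v).filter fun u => (alv o 1 m m y (c2 v u) v u).card ≠ 0), ?_, ?_⟩
    · have h1 := Pool.Agent.W319.KF.card_le (H := Γ \ (R1 ⊔ R2)) (H' := Γ \ R1)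
        (sdiff_le_sdiff_left le_sup_left) v (fun u => (alv 0 1 m m y (c1 v u) v u).card) _
        (hsum1 v)
      have h2 := Pool.Agent.W319.KF.card_le (H := Γ \ (R1 ⊔ R2)) (H' := Γ \ (R1 ⊔ R2)) le_rfl v
        (fun u => (alv o 1 m m y (c2 v u) v u).card) _ (hsum2 v)
      have h3 := Finset.card_union_le
        ((nb (Γ \ (R1 ⊔ R2)) v).filter fun u => (alv 0 1 m m y (c1 v u) v u).card ≠ 0)
        ((nb (Γ \ (R1 ⊔ R2)) v).filter fun u => (alv o 1 m m y (c2 v u) v u).card ≠ 0)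
      rw [← Nat.cast_le (α := ℝ)] at h3
      push_cast at h3
      linarith
    · intro u hu huB i hi
      rw [Finset.mem_union, Finset.mem_filter, Finset.mem_filter] at huB
      push Not at huB
      obtain ⟨hB1, hB2⟩ := huB
      have ha1 := Finset.card_eq_zero.1 (hB1 hu)
      have ha2 := Finset.card_eq_zero.1 (hB2 hu)
      rw [mem_nb] at hu
      by_cases h : inT o 1 m (c2 v u)
      · have h1 : i ∈ alv o 1 m m y (c2 v u) v u := by
          rw [mem_alv, ← hi]
          exact ⟨h, h, rfl⟩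
        rw [ha2] at h1
        exact absurd h1 (Finset.notMem_empty i)
      · have h1 : ¬ inT o 1 m (c1 v u) := fun h' => h (hin2 v u hu h')
        have h2 := hout2 v u hu h1
        have h3 := hK2 v u hu
        have h4 : c2 v u < o := by
          by_contra hcon
          apply h
          exact ⟨by omega, by omega⟩
        have h6 : inT 0 1 m (c1 v u) := ⟨Nat.zero_le _, by omega⟩
        have h7 : i ∈ alv 0 1 m m y (c1 v u) v u := by
          rw [mem_alv, ← hi, h2]
          exact ⟨h6, h6, rfl⟩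
        rw [ha1] at h7
        exact absurd h7 (Finset.notMem_empty i)

end Pool.Agent.V11298.EC
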