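import Pool.Agent.H238R2.HY.Struct
import Pool.Agent.V11298.EC.Phase

/-!
# Edge colourings with few forbidden colours at every edge

A common palette of `D + O(q + (log q)² log D)` colours suffices if every edge forbids at most `q`
of them. The random Kempe flips are those of the starting modules `Pool.Agent.W842.KF` (project
KF), refined in `Pool.Agent.V11298.EC.Phase`.
-/

set_option autoImplicit false

namespace Pool.Agent.V11298.EC

open Finset Pool.Agent.W842.KF

section greedy

variable {V : Type} [Fintype V] [DecidableEq V]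

/-- greedy edge colouring with forbidden colours -/
theorem greedyE (Γ : SimpleGraph V) [DecidableRel Γ.Adj] (w q M : ℕ)
    (hdeg : ∀ v, Γ.degree v ≤ w) (F : Sym2 V → Finset ℕ)
    (hF : ∀ e ∈ Γ.edgeSet, (F e).card ≤ q) (hM : 2 * w + q < M) :
    ∃ c : Sym2 V → ℕ, (∀ e ∈ Γ.edgeSet, c e < M ∧ c e ∉ F e) ∧
      ∀ u v v', Γ.Adj u v → Γ.Adj u v' → v ≠ v' → c s(u, v) ≠ c s(u, v') := by
  classical
  have key : ∀ X : Finset (Sym2 V), ∃ c : Sym2 V → ℕ,
      (∀ e ∈ X, e ∈ Γ.edgeSet → c e < M ∧ c e ∉ F e) ∧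
      ∀ u v v', Γ.Adj u v → Γ.Adj u v' → v ≠ v' → s(u, v) ∈ X → s(u, v') ∈ X →
        c s(u, v) ≠ c s(u, v') := by
    intro X
    induction X using Finset.induction_on with
    | empty => exact ⟨fun _ => 0, by simp, by simp⟩
    | insert e X he ih =>
      obtain ⟨c, hc1, hc2⟩ := ih
      by_cases hee : e ∈ Γ.edgeSet
      · induction e using Sym2.ind with
        | _ a b =>
        rw [SimpleGraph.mem_edgeSet] at hee
        set U : Finset ℕ := (Γ.neighborFinset a).image (fun x => c s(a, x)) ∪
          (Γ.neighborFinset b).image (fun x => c s(b, x)) ∪ F s(a, b) with hU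
        have hcard : U.card < (range M).card := by
          rw [card_range]
          have h1 : ((Γ.neighborFinset a).image (fun x => c s(a, x))).card ≤ w :=
            card_image_le.trans (by rw [SimpleGraph.card_neighborFinset_eq_degree]; exact hdeg a)
          have h2 : ((Γ.neighborFinset b).image (fun x => c s(b, x))).card ≤ w :=
            card_image_le.trans (by rw [SimpleGraph.card_neighborFinset_eq_degree]; exact hdeg b)
          have h3 := hF s(a, b) (by rw [SimpleGraph.mem_edgeSet]; exact hee)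
          have h4 : U.card ≤ w + w + q :=
            (card_union_le _ _).trans (add_le_add ((card_union_le _ _).trans (add_le_add h1 h2)) h3)
          omega
        obtain ⟨x, hx, hxU⟩ := exists_mem_notMem_of_card_lt_card hcard
        rw [mem_range] at hx
        rw [hU, mem_union, mem_union, not_or, not_or] at hxU
        obtain ⟨⟨hxa, hxb⟩, hxF⟩ := hxU
        have hxa' : ∀ y, Γ.Adj a y → c s(a, y) ≠ x := fun y hy h =>
          hxa (mem_image.2 ⟨y, by rw [SimpleGraph.mem_neighborFinset]; exact hy, h⟩)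
        have hxb' : ∀ y, Γ.Adj b y → c s(b, y) ≠ x := fun y hy h =>
          hxb (mem_image.2 ⟨y, by rw [SimpleGraph.mem_neighborFinset]; exact hy, h⟩)
        have hx' : ∀ u v, Γ.Adj u v → u ∈ s(a, b) → c s(u, v) ≠ x := by
          intro u v h hu
          rw [Sym2.mem_iff] at hu
          rcases hu with rfl | rfl
          · exact hxa' v h
          · exact hxb' v h
        refine ⟨Function.update c s(a, b) x, ?_, ?_⟩
        · intro e he1 he2
          by_cases h : e = s(a, b)
          · subst h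
            rw [Function.update_self]
            exact ⟨hx, hxF⟩
          · rw [Function.update_of_ne h]
            exact hc1 e ((mem_insert.1 he1).resolve_left h) he2
        · intro u v v' h1 h2 hne h3 h4
          have hne' : s(u, v) ≠ s(u, v') := fun h => hne (Sym2.congr_right.1 h)
          by_cases g1 : s(u, v) = s(a, b)
          · have g2 : s(u, v') ≠ s(a, b) := fun h => hne' (g1.trans h.symm)
            rw [g1, Function.update_self, Function.update_of_ne g2]
            exact (hx' u v' h2 (by rw [← g1]; exact Sym2.mem_mk_left u v)).symm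
          · rw [Function.update_of_ne g1]
            by_cases g2 : s(u, v') = s(a, b)
            · rw [g2, Function.update_self]
              exact hx' u v h1 (by rw [← g2]; exact Sym2.mem_mk_left u v')
            · rw [Function.update_of_ne g2]
              exact hc2 u v v' h1 h2 hne ((mem_insert.1 h3).resolve_left g1)
                ((mem_insert.1 h4).resolve_left g2)
      · refine ⟨c, ?_, ?_⟩
        · intro e' he1 he2
          rcases mem_insert.1 he1 with rfl | h
          · exact absurd he2 hee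
          · exact hc1 e' h he2
        · intro u v v' h1 h2 hne h3 h4
          refine hc2 u v v' h1 h2 hne ?_ ?_
          · rcases mem_insert.1 h3 with h | h
            · exact absurd (h ▸ (show s(u, v) ∈ Γ.edgeSet from h1)) hee
            · exact h
          · rcases mem_insert.1 h4 with h | h
            · exact absurd (h ▸ (show s(u, v') ∈ Γ.edgeSet from h2)) hee
            · exact h
  obtain ⟨c, h1, h2⟩ := key univ
  exact ⟨c, fun e he => h1 e (mem_univ e) he,
    fun u v v' h3 h4 h5 => h2 u v v' h3 h4 h5 (mem_univ _) (mem_univ _)⟩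

end greedy

theorem card_nb {V : Type} [Fintype V] (H : SimpleGraph V) [DecidableRel H.Adj] (v : V) :
    (nb H v).card = H.degree v := by
  classical
  rw [← SimpleGraph.card_neighborFinset_eq_degree]
  congr 1
  ext u
  rw [mem_nb, SimpleGraph.mem_neighborFinset]

/-- the edges with a forbidden colour -/
def bad {V : Type} (G : SimpleGraph V) (c : V → V → ℕ) (F : Sym2 V → Finset ℕ)
    (hc : ∀ u v, c u v = c v u) : SimpleGraph V where
  Adj u v := G.Adj u v ∧ c u v ∈ F s(u, v)
  symm := by
    constructor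
    rintro u v ⟨h1, h2⟩
    refine ⟨h1.symm, ?_⟩
    rw [hc v u, Sym2.eq_swap]
    exact h2
  loopless := ⟨fun u h => G.loopless.irrefl u h.1⟩

/-- enumeration of a finite set of at most `q` natural numbers -/
theorem enum (A : Finset ℕ) (q K : ℕ) (h : A.card ≤ q) :
    ∃ y : Fin q → ℕ, (∀ x ∈ A, ∃ i, y i = x) ∧ ∀ i i', y i < K → y i = y i' → i = i' := by
  classical
  refine ⟨fun i => if hi : (i : ℕ) < A.card then (A.equivFin.symm ⟨i, hi⟩ : ℕ) else K, ?_, ?_⟩
  · intro x hx
    refine ⟨⟨(A.equivFin ⟨x, hx⟩ : ℕ), lt_of_lt_of_le (A.equivFin ⟨x, hx⟩).2 h⟩, ?_⟩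
    simp
  · intro i i' h1 h2
    by_cases hi : (i : ℕ) < A.card
    · simp only [dif_pos hi] at h1 h2
      by_cases hi' : (i' : ℕ) < A.card
      · simp only [dif_pos hi'] at h2
        have h3 := A.equivFin.symm.injective (Subtype.ext h2)
        have h5 : (i : ℕ) = (i' : ℕ) := congrArg (fun z : Fin A.card => (z : ℕ)) h3
        exact Fin.ext h5
      · simp only [dif_neg hi'] at h2
        omega
    · simp only [dif_neg hi] at h1
      omega

/-- **Few forbidden colours.** -/
theorem forb {V : Type} [Fintype V] [DecidableEq V] (G : SimpleGraph V) (D q N : ℕ)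
    (hq : 1 ≤ q) [DecidableRel G.Adj] (hD : ∀ v, G.degree v ≤ D) (F : Sym2 V → Finset ℕ)
    (hF : ∀ e ∈ G.edgeSet, (F e).card ≤ q)
    (hN : (D : ℝ) + 47 + 17 * q + (88 + 40 * (Nat.log 2 q + 4) ^ 2) * Real.log (D + 1) ≤ N) :
    ∃ c : Sym2 V → ℕ, (∀ e ∈ G.edgeSet, c e < N ∧ c e ∉ F e) ∧
      ∀ u v v', G.Adj u v → G.Adj u v' → v ≠ v' → c s(u, v) ≠ c s(u, v') := by
  classical
  set L : ℝ := Real.log ((D : ℝ) + 1) with hL
  have hL0 : 0 ≤ L := Real.log_nonneg (by have : (0 : ℝ) ≤ D := Nat.cast_nonneg _; linarith)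
  have hqr : (1 : ℝ) ≤ q := by exact_mod_cast hq
  rcases Nat.lt_or_ge (D + 1) 64 with h64 | h64
  · refine greedyE G D q N hD F hF ?_
    have h1 : ((2 * D + q : ℕ) : ℝ) < N := by
      have h2 : (D : ℝ) ≤ 62 := by exact_mod_cast (by omega : D ≤ 62)
      push_cast
      nlinarith
    exact_mod_cast h1
  · obtain ⟨c, hc1, hc2, hc3⟩ := Pool.Agent.H238R2.HY.vizing G D hD
    -- the tests
    have hy : ∀ e : Sym2 V, ∃ y : Fin q → ℕ, (e ∈ G.edgeSet → ∀ x ∈ F e, ∃ i, y i = x) ∧
        ∀ i i', y i < D + 1 → y i = y i' → i = i' := by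
      intro e
      by_cases he : e ∈ G.edgeSet
      · obtain ⟨y, hy1, hy2⟩ := enum (F e) q (D + 1) (hF e he)
        exact ⟨y, fun _ => hy1, hy2⟩
      · obtain ⟨y, hy1, hy2⟩ := enum ∅ q (D + 1) (by simp)
        exact ⟨y, fun h => absurd h he, hy2⟩
    choose y hy hyi using hy
    obtain ⟨R, c1, hR, hR1, hcol, hlt, hB⟩ := edge V G c (D + 1) q
      (fun i v u => y s(v, u) i) (fun v u => hyi s(v, u)) h64 hq ⟨hc1, hc3⟩ (fun v => by
        rw [card_nb]
        exact (hD v).trans (Nat.le_succ _))
      (fun u v h => Nat.lt_succ_of_le (hc2 u v h))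
    choose B hB1 hB2 using hB
    set C := bad (G \ R) c1 F hcol.1 with hC
    have hCB : ∀ v, nb C v ⊆ B v := by
      intro v u hu
      rw [mem_nb] at hu
      by_contra hnot
      have h4 := hB2 v u (mem_nb.2 hu.1) hnot
      have hadj : s(v, u) ∈ G.edgeSet := ((SimpleGraph.sdiff_adj _ _ _ _).1 hu.1).1
      obtain ⟨i, hi⟩ := hy s(v, u) hadj _ hu.2
      exact h4 i hi.symm
    set l : ℝ := ((Nat.log 2 q : ℕ) : ℝ) with hl
    have hl0 : 0 ≤ l := Nat.cast_nonneg _
    set w := ⌊44 * L + 8 * (q : ℝ) + 20 * (l + 4) ^ 2 * L⌋₊ with hw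
    have hw0 : (0 : ℝ) ≤ 44 * L + 8 * (q : ℝ) + 20 * (l + 4) ^ 2 * L := by positivity
    set Γ := R ⊔ C with hΓ
    have hlogK : Real.log ((D + 1 : ℕ) : ℝ) = L := by
      rw [hL]; push_cast; rfl
    have hdeg : ∀ v, Γ.degree v ≤ w := by
      intro v
      rw [hw, Nat.le_floor_iff hw0, ← card_nb]
      have h1 : nb Γ v ⊆ nb R v ∪ B v := by
        intro u hu
        rw [mem_nb, hΓ, SimpleGraph.sup_adj] at hu
        rw [mem_union]
        rcases hu with hu | hu
        · exact Or.inl (mem_nb.2 hu)
        · exact Or.inr (hCB v (mem_nb.2 hu))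
      have h2 : ((nb Γ v).card : ℝ) ≤ (nb R v).card + (B v).card := by
        exact_mod_cast (card_le_card h1).trans (card_union_le _ _)
      have h3 := hR1 v
      have h4 := hB1 v
      rw [hlogK] at h3 h4
      linarith
    have hΓG : Γ ≤ G := by
      rw [hΓ]
      refine sup_le hR ?_
      intro u v h
      exact ((SimpleGraph.sdiff_adj _ _ _ _).1 h.1).1
    obtain ⟨c2, hv1, hv2⟩ := greedyE Γ w q (2 * w + q + 1) hdeg
      (fun e => (F e).image fun x => x - (D + 1)) (fun e he => card_image_le.trans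
        (hF e (SimpleGraph.edgeSet_mono hΓG he))) (by omega)
    -- the colouring
    have hnot : ∀ u v, G.Adj u v → ¬ Γ.Adj u v → (G \ R).Adj u v ∧ c1 u v ∉ F s(u, v) ∧
        c1 u v < D + 1 := by
      intro u v h1 h2
      have h3 : (G \ R).Adj u v := by
        rw [SimpleGraph.sdiff_adj]
        exact ⟨h1, fun h => h2 (by rw [hΓ, SimpleGraph.sup_adj]; exact Or.inl h)⟩
      refine ⟨h3, ?_, hlt u v h3⟩
      intro h
      exact h2 (by rw [hΓ, SimpleGraph.sup_adj]; exact Or.inr ⟨h3, h⟩)
    let c1' : Sym2 V → ℕ := fun e => Sym2.lift ⟨c1, hcol.1⟩ e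
    have hc1' : ∀ u v, c1' s(u, v) = c1 u v := fun u v => Sym2.lift_mk _ _ _
    have hNN : D + 1 + (2 * w + q + 1) ≤ N := by
      have h1 : (w : ℝ) ≤ 44 * L + 8 * (q : ℝ) + 20 * (l + 4) ^ 2 * L := Nat.floor_le hw0
      have h2 : ((D + 1 + (2 * w + q + 1) : ℕ) : ℝ) ≤ N := by
        push_cast
        linarith
      exact_mod_cast h2
    refine ⟨fun e => if e ∈ Γ.edgeSet then D + 1 + c2 e else c1' e, ?_, ?_⟩
    · intro e he
      by_cases h : e ∈ Γ.edgeSet
      · simp only [if_pos h]
        obtain ⟨h1, h2⟩ := hv1 e h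
        refine ⟨by omega, fun h3 => h2 (mem_image.2 ⟨_, h3, by omega⟩)⟩
      · simp only [if_neg h]
        induction e using Sym2.ind with
        | _ a b =>
        rw [SimpleGraph.mem_edgeSet] at he h
        obtain ⟨_, h2, h3⟩ := hnot a b he h
        rw [hc1']
        exact ⟨by omega, h2⟩
    · intro u v v' h1 h2 hne h
      have g : ∀ x, G.Adj u x → (s(u, x) ∈ Γ.edgeSet ∧
          (if s(u, x) ∈ Γ.edgeSet then D + 1 + c2 s(u, x) else c1' s(u, x)) =
            D + 1 + c2 s(u, x)) ∨ (¬ Γ.Adj u x ∧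
          (if s(u, x) ∈ Γ.edgeSet then D + 1 + c2 s(u, x) else c1' s(u, x)) = c1 u x ∧
            c1 u x < D + 1 ∧ (G \ R).Adj u x) := by
        intro x hx
        by_cases h : s(u, x) ∈ Γ.edgeSet
        · left
          exact ⟨h, by rw [if_pos h]⟩
        · right
          have h' : ¬ Γ.Adj u x := fun h'' => h h''
          obtain ⟨a1, a2, a3⟩ := hnot u x hx h'
          exact ⟨h', by rw [if_neg h, hc1'], a3, a1⟩
      rcases g v h1 with ⟨a1, a2⟩ | ⟨a1, a2, a3, a4⟩
      · rcases g v' h2 with ⟨b1, b2⟩ | ⟨b1, b2, b3, b4⟩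
        · have h3 : D + 1 + c2 s(u, v) = D + 1 + c2 s(u, v') := by
            rw [← a2, ← b2]; exact h
          exact hv2 u v v' a1 b1 hne (by omega)
        · have h3 : D + 1 + c2 s(u, v) = c1 u v' := by
            rw [← a2, ← b2]; exact h
          omega
      · rcases g v' h2 with ⟨b1, b2⟩ | ⟨b1, b2, b3, b4⟩
        · have h3 : c1 u v = D + 1 + c2 s(u, v') := by
            rw [← a2, ← b2]; exact h
          omega
        · have h3 : c1 u v = c1 u v' := by
            rw [← a2, ← b2]; exact h
          exact hcol.2 u v v' a4 b4 hne h3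

end Pool.Agent.V11298.EC
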