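import Pool.Agent.V11298.EC.Forb
import Pool.Agent.W52.KF.Rec

/-!
# Edge colourings that stay away from given labels of the vertices
-/

set_option autoImplicit false

namespace Pool.Agent.V11298.EC

open Finset Pool.Agent.W842.KF

/-- the last step: new colours for the edges of `R` and for the edges with a forbidden colour -/
theorem finish {V : Type} [Fintype V] (G R : SimpleGraph V) (hR : R ≤ G) (c1 : V → V → ℕ)
    (K w q N : ℕ) (hcol : Col (G \ R) c1) (hlt : ∀ u v, (G \ R).Adj u v → c1 u v < K)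
    (F : Sym2 V → Finset ℕ) (hF : ∀ e ∈ G.edgeSet, (F e).card ≤ q)
    (hdeg0 : ∀ v, (nb (R ⊔ bad (G \ R) c1 F hcol.1) v).card ≤ w) (hN : K + 2 * w + q + 1 ≤ N) :
    ∃ c : Sym2 V → ℕ, (∀ e ∈ G.edgeSet, c e < N ∧ c e ∉ F e) ∧
      ∀ u v v', G.Adj u v → G.Adj u v' → v ≠ v' → c s(u, v) ≠ c s(u, v') := by
  classical
  set C := bad (G \ R) c1 F hcol.1 with hC
  set Γ := R ⊔ C with hΓ
  have hdeg : ∀ v, Γ.degree v ≤ w := by
    intro v
    rw [← card_nb]
    exact hdeg0 v
  have hΓG : Γ ≤ G := by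
    rw [hΓ]
    refine sup_le hR ?_
    intro u v h
    exact ((SimpleGraph.sdiff_adj _ _ _ _).1 h.1).1
  obtain ⟨c2, hv1, hv2⟩ := greedyE Γ w q (2 * w + q + 1) hdeg
    (fun e => (F e).image fun x => x - K) (fun e he => card_image_le.trans
      (hF e (SimpleGraph.edgeSet_mono hΓG he))) (by omega)
  have hnot : ∀ u v, G.Adj u v → ¬ Γ.Adj u v → (G \ R).Adj u v ∧ c1 u v ∉ F s(u, v) ∧
      c1 u v < K := by
    intro u v h1 h2
    have h3 : (G \ R).Adj u v := by
      rw [SimpleGraph.sdiff_adj]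
      exact ⟨h1, fun h => h2 (by rw [hΓ, SimpleGraph.sup_adj]; exact Or.inl h)⟩
    refine ⟨h3, ?_, hlt u v h3⟩
    intro h
    exact h2 (by rw [hΓ, SimpleGraph.sup_adj]; exact Or.inr ⟨h3, h⟩)
  let c1' : Sym2 V → ℕ := fun e => Sym2.lift ⟨c1, hcol.1⟩ e
  have hc1' : ∀ u v, c1' s(u, v) = c1 u v := fun u v => Sym2.lift_mk _ _ _
  refine ⟨fun e => if e ∈ Γ.edgeSet then K + c2 e else c1' e, ?_, ?_⟩
  · intro e he
    by_cases h : e ∈ Γ.edgeSet
    · simp only [if_pos h]
      obtain ⟨h1, h2⟩ := hv1 e h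
      refine ⟨by omega, fun h3 => h2 (mem_image.2 ⟨_, h3, by omega⟩)⟩
    · simp only [if_neg h]
      induction e using Sym2.ind with
      | _ a b =>
      rw [SimpleGraph.mem_edgeSet] at he h
      obtain ⟨_, h2, h3⟩ := hnot a b he h
      rw [hc1']
      exact ⟨by omega, h2⟩
  · intro u v v' h1 h2 hne h
    have g : ∀ x, G.Adj u x → (s(u, x) ∈ Γ.edgeSet ∧
        (if s(u, x) ∈ Γ.edgeSet then K + c2 s(u, x) else c1' s(u, x)) =
          K + c2 s(u, x)) ∨ (¬ Γ.Adj u x ∧
        (if s(u, x) ∈ Γ.edgeSet then K + c2 s(u, x) else c1' s(u, x)) = c1 u x ∧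
          c1 u x < K ∧ (G \ R).Adj u x) := by
      intro x hx
      by_cases h : s(u, x) ∈ Γ.edgeSet
      · left
        exact ⟨h, by rw [if_pos h]⟩
      · right
        have h' : ¬ Γ.Adj u x := fun h'' => h h''
        obtain ⟨a1, a2, a3⟩ := hnot u x hx h'
        exact ⟨h', by rw [if_neg h, hc1'], a3, a1⟩
    rcases g v h1 with ⟨a1, a2⟩ | ⟨a1, a2, a3, a4⟩
    · rcases g v' h2 with ⟨b1, b2⟩ | ⟨b1, b2, b3, b4⟩
      · have h3 : K + c2 s(u, v) = K + c2 s(u, v') := by
          rw [← a2, ← b2]; exact h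
        exact hv2 u v v' a1 b1 hne (by omega)
      · have h3 : K + c2 s(u, v) = c1 u v' := by
          rw [← a2, ← b2]; exact h
        omega
    · rcases g v' h2 with ⟨b1, b2⟩ | ⟨b1, b2, b3, b4⟩
      · have h3 : c1 u v = K + c2 s(u, v') := by
          rw [← a2, ← b2]; exact h
        omega
      · have h3 : c1 u v = c1 u v' := by
          rw [← a2, ← b2]; exact h
        exact hcol.2 u v v' a4 b4 hne h3

/-- the labels at circular distance less than `p` from the label `f` -/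
def win (N p f : ℕ) : Finset ℕ := (range (2 * p - 1)).image fun k => (f + N - (p - 1) + k) % N

theorem card_win (N p f : ℕ) : (win N p f).card ≤ 2 * p - 1 :=
  card_image_le.trans (by rw [card_range])

/-- `x` and `y` are at circular distance at least `p` -/
def Far (N p x y : ℕ) : Prop := (p : ℤ) ≤ |(x : ℤ) - y| ∧ |(x : ℤ) - y| ≤ (N : ℤ) - p

theorem far_of_notMem {N p f x : ℕ} (hp : 1 ≤ p) (hpN : 2 * p ≤ N) (hf : f < N) (hx : x < N)
    (h : x ∉ win N p f) : Far N p f x := by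
  have key : ∀ k, k < 2 * p - 1 → ∀ j, f + N - (p - 1) + k = x + N * j → False := by
    intro k hk j hj
    apply h
    unfold win
    rw [mem_image]
    refine ⟨k, mem_range.2 hk, ?_⟩
    rw [hj, Nat.add_mul_mod_self_left]
    exact Nat.mod_eq_of_lt hx
  unfold Far
  constructor
  · by_contra hc
    rw [not_le, abs_lt] at hc
    obtain ⟨h1, h2⟩ := hc
    exact key (x + p - 1 - f) (by omega) 1 (by omega)
  · by_contra hc
    rw [not_le] at hc
    rcases le_total (f : ℤ) x with h1 | h1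
    · rw [abs_of_nonpos (by omega)] at hc
      exact key (x + p - 1 - N - f) (by omega) 0 (by omega)
    · rw [abs_of_nonneg (by omega)] at hc
      exact key (x + N + p - 1 - f) (by omega) 2 (by omega)

/-- an interval of length at least `2 p - 1` which contains none of the two end points of the
window contains no label of the window -/
theorem notMem_of_block {N K p f x α b : ℕ} (hp : 1 ≤ p) (hN : K + 2 * p ≤ N) (hf : f < N)
    (hx : x < K) (hb : 2 * p - 1 ≤ b) (h1 : α ≤ x) (h2 : x < α + b)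
    (ht1 : ¬ (α ≤ (f + (p - 1)) % N ∧ (f + (p - 1)) % N < α + b))
    (ht2 : ¬ (α ≤ (f + N - (p - 1)) % N ∧ (f + N - (p - 1)) % N < α + b)) :
    x ∉ win N p f := by
  intro hmem
  unfold win at hmem
  rw [mem_image] at hmem
  obtain ⟨k, hk, hkx⟩ := hmem
  rw [mem_range] at hk
  -- the three possible reductions modulo `N`
  have hmod : ∀ z, z < 3 * N → z % N = z ∨ (N ≤ z ∧ z % N = z - N) ∨
      (2 * N ≤ z ∧ z % N = z - 2 * N) := by
    intro z hz
    rcases Nat.lt_or_ge z N with h | h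
    · left; exact Nat.mod_eq_of_lt h
    · right
      rcases Nat.lt_or_ge z (2 * N) with h' | h'
      · left
        refine ⟨h, ?_⟩
        rw [Nat.mod_eq_sub_mod h, Nat.mod_eq_of_lt (by omega)]
      · right
        refine ⟨h', ?_⟩
        rw [Nat.mod_eq_sub_mod h, Nat.mod_eq_sub_mod (by omega), Nat.mod_eq_of_lt (by omega)]
        omega
  have hlt : ∀ z, z % N < N := fun z => Nat.mod_lt _ (by omega)
  have a1 := hmod (f + (p - 1)) (by omega)
  have a2 := hmod (f + N - (p - 1)) (by omega)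
  have a3 := hmod (f + N - (p - 1) + k) (by omega)
  have b1 := hlt (f + (p - 1))
  have b2 := hlt (f + N - (p - 1))
  have b3 := hlt (f + N - (p - 1) + k)
  generalize (f + (p - 1)) % N = t1 at *
  generalize (f + N - (p - 1)) % N = t2 at *
  generalize (f + N - (p - 1) + k) % N = t3 at *
  omega

theorem t_edge : S_EDGE :=
  Pool.Agent.W319.KF.t_edge
    (Pool.Agent.W372.KF.t_phase t_level Pool.Agent.W853.KF.t_sg Pool.Agent.W52.KF.t_rec)

theorem card_ends {V : Type} [Fintype V] [DecidableEq V] (B : V → Finset ℕ) (r : ℕ)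
    (hB : ∀ v, (B v).card ≤ r) (e : Sym2 V) :
    ((univ.filter fun v => v ∈ e).biUnion B).card ≤ 2 * r := by
  classical
  induction e using Sym2.ind with
  | _ a b =>
  have h4 : (univ.filter fun v => v ∈ s(a, b)) ⊆ {a, b} := by
    intro x hx
    simpa using hx
  refine card_biUnion_le.trans ((sum_le_sum fun v _ => hB v).trans ?_)
  rw [sum_const, smul_eq_mul]
  exact Nat.mul_le_mul_right _ ((card_le_card h4).trans card_le_two)

/-- **Edge colourings far from the labels of the vertices.** -/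
theorem wind {V : Type} [Fintype V] [DecidableEq V] (G : SimpleGraph V) [DecidableRel G.Adj]
    (D h p N : ℕ) (hp : 1 ≤ p) (hD : ∀ v, G.degree v ≤ D) (s : V → ℕ) (hs : ∀ v, s v < N)
    (A : V → Finset ℕ) (hA : ∀ v, (A v).card ≤ h)
    (hN : (D : ℝ) + (132 + 64 * h) * p + (1048 + 480 * h) * Real.log (D + 1) ≤ N) :
    ∃ c : Sym2 V → ℕ, (∀ e ∈ G.edgeSet, c e < N) ∧
      (∀ u v, G.Adj u v → Far N p (s u) (c s(u, v)) ∧ c s(u, v) ∉ A u) ∧
      ∀ u v v', G.Adj u v → G.Adj u v' → v ≠ v' → c s(u, v) ≠ c s(u, v') := by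
  classical
  set L : ℝ := Real.log ((D : ℝ) + 1) with hL
  have hL0 : 0 ≤ L := Real.log_nonneg (by have : (0 : ℝ) ≤ D := Nat.cast_nonneg _; linarith)
  have hpr : (1 : ℝ) ≤ p := by exact_mod_cast hp
  have hhr : (0 : ℝ) ≤ h := Nat.cast_nonneg _
  have hhp : (0 : ℝ) ≤ h * (p - 1) := mul_nonneg hhr (by linarith)
  have hhL : (0 : ℝ) ≤ h * L := mul_nonneg hhr hL0
  have hNp : D + 1 + 2 * p ≤ N := by
    have h1 : ((D + 1 + 2 * p : ℕ) : ℝ) ≤ N := by
      push_cast
      nlinarith
    exact_mod_cast h1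
  let W : Sym2 V → Finset ℕ := fun e => (univ.filter fun v => v ∈ e).biUnion
    fun v => win N p (s v) ∪ A v
  have hW : ∀ e ∈ G.edgeSet, (W e).card ≤ 2 * (2 * p - 1 + h) := fun e _ =>
    card_ends _ _ (fun v => (card_union_le _ _).trans (add_le_add (card_win _ _ _) (hA v))) e
  have hWmem : ∀ u v x, x ∈ win N p (s u) ∪ A u → x ∈ W s(u, v) := by
    intro u v x hx
    exact mem_biUnion.2 ⟨u, by simp, hx⟩
  suffices hmain : ∃ c : Sym2 V → ℕ, (∀ e ∈ G.edgeSet, c e < N ∧ c e ∉ W e) ∧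
      ∀ u v v', G.Adj u v → G.Adj u v' → v ≠ v' → c s(u, v) ≠ c s(u, v') by
    obtain ⟨c, hc1, hc2⟩ := hmain
    refine ⟨c, fun e he => (hc1 e he).1, ?_, hc2⟩
    intro u v huv
    obtain ⟨h1, h2⟩ := hc1 s(u, v) huv
    refine ⟨far_of_notMem hp (by omega) (hs u) h1 fun h3 => h2 (hWmem u v _ ?_), fun h3 =>
      h2 (hWmem u v _ ?_)⟩
    · exact mem_union_left _ h3
    · exact mem_union_right _ h3
  have hpcast : ((2 * p - 1 : ℕ) : ℝ) = 2 * p - 1 := by
    rw [Nat.cast_sub (by omega)]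
    push_cast
    ring
  by_cases hsmall : D + 1 < 64 ∨ D + 1 < 2 * p - 1
  · refine greedyE G D (2 * (2 * p - 1 + h)) N hD W hW ?_
    have h1 : ((2 * D + 2 * (2 * p - 1 + h) : ℕ) : ℝ) < N := by
      rw [Nat.cast_add, Nat.cast_mul, Nat.cast_mul, Nat.cast_add, hpcast]
      have h2 : (D : ℝ) ≤ 62 ∨ (D : ℝ) ≤ 2 * p := by
        rcases hsmall with h | h
        · left
          exact_mod_cast (by omega : D ≤ 62)
        · right
          exact_mod_cast (by omega : D ≤ 2 * p)
      push_cast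
      rcases h2 with h2 | h2 <;> nlinarith
    exact_mod_cast h1
  · rw [not_or, not_lt, not_lt] at hsmall
    obtain ⟨h64, hdK⟩ := hsmall
    obtain ⟨c, hc1, hc2, hc3⟩ := Pool.Agent.H238R2.HY.vizing G D hD
    -- the tests
    let T : Sym2 V → Finset ℕ := fun e => (univ.filter fun v => v ∈ e).biUnion
      fun v => insert ((s v + (p - 1)) % N) (insert ((s v + N - (p - 1)) % N) (A v))
    have hT : ∀ e, (T e).card ≤ 2 * (h + 2) := fun e => card_ends _ _ (fun v =>
      (card_insert_le _ _).trans (Nat.succ_le_succ ((card_insert_le _ _).trans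
        (Nat.succ_le_succ (hA v))))) e
    have hTmem : ∀ u e x, u ∈ e →
        x ∈ insert ((s u + (p - 1)) % N) (insert ((s u + N - (p - 1)) % N) (A u)) →
        x ∈ T e := by
      intro u e x hu hx
      exact mem_biUnion.2 ⟨u, by simpa using hu, hx⟩
    have hy : ∀ e : Sym2 V, ∃ y : Fin (2 * (h + 2)) → ℕ, ∀ x ∈ T e, ∃ i, y i = x := by
      intro e
      obtain ⟨y, hy1, _⟩ := enum (T e) (2 * (h + 2)) (D + 1) (hT e)
      exact ⟨y, hy1⟩
    choose y hy using hy
    obtain ⟨R, c1, hR, hR1, hcol, hlt, hB⟩ := t_edge V G c (D + 1) (2 * (h + 2)) (2 * p - 1)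
      (fun i v u => y s(v, u) i) h64 (by omega) (by omega) hdK ⟨hc1, hc3⟩ (fun v => by
        rw [card_nb]
        exact (hD v).trans (Nat.le_succ _))
      (fun u v h => Nat.lt_succ_of_le (hc2 u v h))
    choose B hB1 hB2 using hB
    have hCB : ∀ v, nb (bad (G \ R) c1 W hcol.1) v ⊆ B v := by
      intro v u hu
      rw [mem_nb] at hu
      by_contra hnot
      obtain ⟨α, b, g1, g2, g3, g4⟩ := hB2 v u (mem_nb.2 hu.1) hnot
      have hg4 : ∀ x ∈ T s(v, u), ¬ (α ≤ x ∧ x < α + b) := by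
        intro x hx
        obtain ⟨i, hi⟩ := hy s(v, u) x hx
        have := g4 i
        rwa [hi] at this
      obtain ⟨z, hz, hz2⟩ := mem_biUnion.1 hu.2
      have hz1 : z ∈ s(v, u) := by simpa using hz
      rcases mem_union.1 hz2 with h5 | h5
      · exact notMem_of_block hp (by omega) (hs z) (hlt v u hu.1) g1 g2 g3
          (hg4 _ (hTmem z _ _ hz1 (mem_insert_self _ _)))
          (hg4 _ (hTmem z _ _ hz1 (mem_insert_of_mem (mem_insert_self _ _)))) h5
      · exact hg4 _ (hTmem z _ _ hz1 (mem_insert_of_mem (mem_insert_of_mem h5))) ⟨g2, g3⟩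
    set X : ℝ := 44 * L + (8 * (2 * (h + 2)) * (2 * p - 1) + 120 * (2 * (h + 2)) * L) with hX
    have hX0 : 0 ≤ X := by
      rw [hX]
      have : (0 : ℝ) ≤ 2 * p - 1 := by linarith
      positivity
    set w := ⌊X⌋₊ with hw
    have hlogK : Real.log ((D + 1 : ℕ) : ℝ) = L := by
      rw [hL]; push_cast; rfl
    refine finish G R hR c1 (D + 1) w (2 * (2 * p - 1 + h)) N hcol hlt W hW ?_ ?_
    · intro v
      rw [hw, Nat.le_floor_iff hX0]
      have h1 : nb (R ⊔ bad (G \ R) c1 W hcol.1) v ⊆ nb R v ∪ B v := by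
        intro u hu
        rw [mem_nb, SimpleGraph.sup_adj] at hu
        rw [mem_union]
        rcases hu with hu | hu
        · exact Or.inl (mem_nb.2 hu)
        · exact Or.inr (hCB v (mem_nb.2 hu))
      have h2 : ((nb (R ⊔ bad (G \ R) c1 W hcol.1) v).card : ℝ) ≤
          (nb R v).card + (B v).card := by
        exact_mod_cast (card_le_card h1).trans (card_union_le _ _)
      have h3 := hR1 v
      have h4 := hB1 v
      rw [hlogK] at h3 h4
      rw [hpcast] at h4
      push_cast at h4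
      rw [hX]
      linarith
    · have h1 : (w : ℝ) ≤ X := Nat.floor_le hX0
      have h2 : ((D + 1 + 2 * w + 2 * (2 * p - 1 + h) + 1 : ℕ) : ℝ) ≤ N := by
        push_cast [hpcast]
        nlinarith
      exact_mod_cast h2

end Pool.Agent.V11298.EC
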